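import Pool.Agent.helper7.Ramsey.Final

/-!
# Ramsey Cayley graphs on powers of lcm-order cyclic groups

There is an absolute constant `C` such that for every `n ≥ 1` the group
`G_n = (ℤ / L_n ℤ)^n`, `L_n = lcm(1, …, 2^(2^n))`, has a `C`-Ramsey Cayley graph.

Idea of the proof. The Cayley graph of a random symmetric set works for every finite abelian group
`G` whose rank is small compared with `log |G|`. Every set of size `2048 s`, `s ≍ log |G|`,
contains a set `A` of size `s` with `|A - A| ≥ 1024 s`, so it suffices to show that at most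
`2^(K s / 4)` sets of size `s` satisfy `|A - A| ≤ K |A|`, for `K ≥ 1024`. For `K ≥ s^(1/25)` such
a set is generated by `180 K` of its elements under the partial operation `a + b - c`. For smaller
`K` it has a dissociated base `T` of size `s^(1/10)` (Plünnecke), the base is determined up to few
choices by `2 K` of its elements (Freiman's lemma for weighted difference sets, Siegel's lemma,
and the small rank of `G`), and the popular differences of `A` are contained in `R - R` for a
sparse subset `R` of `A`.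
-/

namespace Pool.Agent.Results.MP_bf05d5_co.RamseyCayleyLcm

/-- `L_n = lcm(1, 2, …, 2^(2^n))`. -/
def lcmOrder (n : ℕ) : ℕ := (Finset.Icc 1 (2 ^ 2 ^ n)).lcm id

/-- The group `G_n = (ℤ / L_n ℤ)^n`. -/
abbrev Grp (n : ℕ) : Type := Fin n → ZMod (lcmOrder n)

/-- The Cayley graph `Cay(G, S)`: `x` and `y` are adjacent exactly when `y - x ∈ S`. -/
def cayley {G : Type*} [AddCommGroup G] (S : Set G) (hS : ∀ x ∈ S, -x ∈ S)
    (h0 : (0 : G) ∉ S) : SimpleGraph G where
  Adj x y := y - x ∈ S
  symm := ⟨fun x y h => by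
    have := hS _ h
    rwa [neg_sub] at this⟩
  loopless := ⟨fun x h => h0 (by rwa [sub_self] at h)⟩

/-- A graph is `C`-Ramsey if each of its cliques and each of its independent sets has at most
`C log₂ |V|` vertices. -/
def IsRamsey {V : Type*} (C : ℝ) (Γ : SimpleGraph V) : Prop :=
  ∀ A : Finset V, (Γ.IsClique (A : Set V) ∨ Γ.IsIndepSet (A : Set V)) →
    (A.card : ℝ) ≤ C * Real.logb 2 (Nat.card V)

lemma two_pow_le_lcmOrder (n : ℕ) : 2 ^ 2 ^ n ≤ lcmOrder n := by
  have hpos : 0 < lcmOrder n := by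
    rw [Nat.pos_iff_ne_zero, lcmOrder, Ne, Finset.lcm_eq_zero_iff]
    rintro ⟨x, hx, hx0⟩
    rw [Finset.mem_Icc] at hx
    simp only [id] at hx0
    omega
  apply Nat.le_of_dvd hpos
  exact Finset.dvd_lcm (f := id) (Finset.mem_Icc.mpr ⟨Nat.one_le_two_pow, le_rfl⟩)

/-- There is an absolute constant `C` such that every group `G_n`, `n ≥ 1`, has a `C`-Ramsey
Cayley graph. -/
theorem result : ∃ C : ℝ, 1 / 2 < C ∧ ∀ n : ℕ, 1 ≤ n →
    ∃ (S : Set (Grp n)) (hS : ∀ x ∈ S, -x ∈ S) (h0 : (0 : Grp n) ∉ S),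
      IsRamsey C (cayley S hS h0) := by
  set C0 : ℝ := ∑ n ∈ Finset.range 1000, (Nat.card (Grp n) : ℝ) with hC0
  have hC0nn : 0 ≤ C0 := Finset.sum_nonneg (fun n _ => Nat.cast_nonneg _)
  have hP : (0 : ℝ) ≤ 2 ^ 74 := by positivity
  refine ⟨2 ^ 74 + C0, by norm_num; linarith, ?_⟩
  intro n hn
  have hL := two_pow_le_lcmOrder n
  have hLpos : 0 < lcmOrder n := lt_of_lt_of_le (by positivity) hL
  have hNe : NeZero (lcmOrder n) := ⟨hLpos.ne'⟩
  have hcard : Nat.card (Grp n) = lcmOrder n ^ n := by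
    rw [Nat.card_eq_fintype_card, Fintype.card_fun, ZMod.card, Fintype.card_fin]
  have hN2 : 2 ≤ Nat.card (Grp n) := by
    rw [hcard]
    have h1 : 2 ≤ 2 ^ 2 ^ n := Nat.le_self_pow (by positivity) 2
    exact (h1.trans hL).trans (Nat.le_self_pow (by omega) _)
  have hlog1 : (1 : ℝ) ≤ Real.logb 2 (Nat.card (Grp n)) := by
    rw [Real.le_logb_iff_rpow_le (by norm_num) (by positivity), Real.rpow_one]
    exact_mod_cast hN2
  by_cases hn1 : n < 1000
  · -- small `n`
    refine ⟨∅, by simp, by simp, ?_⟩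
    intro A _
    have h1 : A.card ≤ Nat.card (Grp n) := by
      rw [Nat.card_eq_fintype_card]
      exact Finset.card_le_univ A
    have h2 : (Nat.card (Grp n) : ℝ) ≤ C0 := by
      rw [hC0]
      exact Finset.single_le_sum (f := fun n => (Nat.card (Grp n) : ℝ))
        (fun i _ => Nat.cast_nonneg _) (Finset.mem_range.mpr hn1)
    have h3 : (A.card : ℝ) ≤ C0 := by
      refine le_trans ?_ h2
      exact_mod_cast h1
    have h4 : C0 * 1 ≤ (2 ^ 74 + C0) * Real.logb 2 (Nat.card (Grp n)) :=
      mul_le_mul (by linarith) hlog1 zero_le_one (by linarith)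
    rw [mul_one] at h4
    exact h3.trans h4
  · push Not at hn1
    obtain ⟨S, hS, h0, hmain⟩ := Helper7.Ramsey.main_large (lcmOrder n) n hn1 hL
    refine ⟨S, hS, h0, ?_⟩
    intro A hA
    have h1 : A.card < 2 ^ 73 * (Nat.log 2 (Nat.card (Grp n)) + 1) := by
      apply hmain A
      rcases hA with hA | hA
      · left
        intro x hx y hy hxy
        exact hA hx hy hxy
      · right
        intro x hx y hy hxy
        exact hA hx hy hxy
    have h2 : ((Nat.log 2 (Nat.card (Grp n)) : ℕ) : ℝ) ≤ Real.logb 2 (Nat.card (Grp n)) :=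
      Real.natLog_le_logb _ _
    have h3 : (A.card : ℝ) ≤ 2 ^ 73 * ((Nat.log 2 (Nat.card (Grp n)) : ℕ) + 1) := by
      have := h1.le
      exact_mod_cast this
    generalize Real.logb 2 (Nat.card (Grp n)) = l at h2 hlog1 ⊢
    generalize ((Nat.log 2 (Nat.card (Grp n)) : ℕ) : ℝ) = m at h2 h3
    have h4 : (0 : ℝ) ≤ C0 * l := mul_nonneg hC0nn (by linarith)
    have h5 : (2 : ℝ) ^ 73 * (m + 1) ≤ 2 ^ 73 * (l + l) :=
      mul_le_mul_of_nonneg_left (by linarith) (by positivity)
    have h6 : (2 : ℝ) ^ 73 * (l + l) = 2 ^ 74 * l := by ring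
    rw [add_mul]
    linarith

end Pool.Agent.Results.MP_bf05d5_co.RamseyCayleyLcm
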